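import Pool.Agent.H875.TM.Pol2
import Pool.Agent.H875.TC.Ser

/-!
# MP_39df77_nt: the sixth moment of zeta is at most a power of the logarithm if and only if the sixth moments of its derivatives of order `O(log T)` in the half-plane of absolute convergence have the expected size

Let `M_k(T) = (1/T) ∫_0^T |ζ(1/2 + it)|^(2k) dt`, `k ≥ 1` real (`k = 3` is the sixth moment).  The conjecture
`M_3(T) ∼ 42 a_3 / 9! (log T)^9` contains the bound `M_3(T) ≪ (log T)^A` for some `A`, which is open.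

Theorem.  Let `k ≥ 1`, `σ₀ > 1/2`, `A ≥ 0`.

(1) If `M_k(T) ≪ (log T)^A` then, for all `n` and all large `T`, uniformly,
`∫_T^{2T} |ζ^(n)(σ₀ + it)|^(2k) dt ≪ (n! (σ₀ - 1/2)^(-n))^(2k) T (log T)^A`.

(2) If `κ log (1 + 1 / (2 σ₀ - 1)) > 1/2` and this bound holds for all `n ≤ κ log T`, then
`M_k(T) ≪ (log T)^(A + 2k)`.

(3) For such `κ`, `M_k(T)` is at most a power of `log T` if and only if the bound in (1) holds for some `A` and
all `n ≤ κ log T`; for `σ₀ > 1` the derivatives may be replaced by the Dirichlet series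
`∑ (log m)^n m^(-σ₀ - it)`.

Proof: by duality the moments are the norms of the functionals `s ↦ ∫_T^{2T} w(τ) ζ(s + iτ) dτ`.  (1) maximum
principle with a Gaussian factor in a high rectangle, without any loss, and Cauchy's estimate.  (2) the Taylor
expansion at `σ₀`, evaluated on the critical line, the functional equation for the terms with `n > κ log T`.
-/

set_option autoImplicit false

namespace Pool.Agent.Results.MP_39df77_nt.LogPowerTaylorMoments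

open Complex MeasureTheory Set Filter

/-- `M_k(T) = (1/T) ∫_0^T |ζ(1/2 + it)|^(2k) dt`. -/
noncomputable def M (k T : ℝ) : ℝ := (1 / T) * ∫ t in (0 : ℝ)..T, ‖riemannZeta (1 / 2 + t * I)‖ ^ (2 * k)

/-- `M_k(T) ≤ C (log T)^A` for `T ≥ 2`. -/
def LogPower (k A : ℝ) : Prop := ∃ C : ℝ, ∀ T : ℝ, 2 ≤ T → M k T ≤ C * Real.log T ^ A

/-- `∫_T^{2T} |ζ^(n)(σ₀ + it)|^(2k) dt ≤ C (n! (σ₀ - 1/2)^(-n))^(2k) T (log T)^A` for all large `T` and all `n`. -/
def TaylorAll (k σ₀ A : ℝ) : Prop := ∃ C T₀ : ℝ, ∀ T : ℝ, T₀ ≤ T → ∀ n : ℕ,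
  ∫ t in T..(2 * T), ‖iteratedDeriv n riemannZeta (σ₀ + t * I)‖ ^ (2 * k) ≤
    C * ((n.factorial : ℝ) / (σ₀ - 1 / 2) ^ n) ^ (2 * k) * (T * Real.log T ^ A)

/-- The same for `n ≤ κ log T`. -/
def TaylorLog (k σ₀ κ A : ℝ) : Prop := ∃ C T₀ : ℝ, ∀ T : ℝ, T₀ ≤ T → ∀ n : ℕ, (n : ℝ) ≤ κ * Real.log T →
  ∫ t in T..(2 * T), ‖iteratedDeriv n riemannZeta (σ₀ + t * I)‖ ^ (2 * k) ≤
    C * ((n.factorial : ℝ) / (σ₀ - 1 / 2) ^ n) ^ (2 * k) * (T * Real.log T ^ A)

/-- The same for the Dirichlet series `∑ (log m)^n m^(-σ₀ - it)`. -/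
def DirichletLog (k σ₀ κ A : ℝ) : Prop := ∃ C T₀ : ℝ, ∀ T : ℝ, T₀ ≤ T → ∀ n : ℕ, (n : ℝ) ≤ κ * Real.log T →
  ∫ t in T..(2 * T), ‖∑' m : ℕ, (Real.log ((m : ℝ) + 1) : ℂ) ^ n / ((m : ℂ) + 1) ^ (σ₀ + t * I)‖ ^ (2 * k) ≤
    C * ((n.factorial : ℝ) / (σ₀ - 1 / 2) ^ n) ^ (2 * k) * (T * Real.log T ^ A)

open Pool.Agent.H875.TM
open Pool.Agent.H875.TC (zeta_iter)

lemma line_cont (k : ℝ) (hk : 0 ≤ k) : Continuous fun t : ℝ => ‖riemannZeta (1 / 2 + t * I)‖ ^ (2 * k) := by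
  apply Continuous.rpow_const _ fun _ => Or.inr (by linarith)
  apply Continuous.norm
  rw [continuous_iff_continuousAt]
  intro t
  have h1 : (1 / 2 + (t : ℂ) * I) ≠ 1 := by
    intro h
    have := congrArg Complex.re h
    simp at this
  exact (differentiableAt_riemannZeta h1).continuousAt.comp (f := fun t : ℝ => 1 / 2 + (t : ℂ) * I) (by fun_prop)

lemma log_iff {k A : ℝ} (hk : 0 ≤ k) (hA : 0 ≤ A) : LogPower k A ↔ LA (2 * k) A := by
  obtain ⟨f, hf⟩ : ∃ f : ℝ → ℝ, f = fun t : ℝ => ‖riemannZeta (1 / 2 + t * I)‖ ^ (2 * k) := ⟨_, rfl⟩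
  have hc : Continuous f := by rw [hf]; exact line_cont k hk
  have hi : ∀ a b : ℝ, IntervalIntegrable f volume a b := fun a b => hc.intervalIntegrable a b
  have h0 : ∀ t, 0 ≤ f t := fun t => by rw [hf]; exact Real.rpow_nonneg (norm_nonneg _) _
  have hM : ∀ T : ℝ, M k T = (1 / T) * ∫ t in (0 : ℝ)..T, f t := fun T => by rw [hf]; rfl
  have hmono : ∀ a b c d : ℝ, c ≤ a → a ≤ b → b ≤ d → (∫ t in a..b, f t) ≤ ∫ t in c..d, f t :=
    fun a b c d hca hab hbd => intervalIntegral.integral_mono_interval hca hab hbd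
      (Eventually.of_forall h0) (hi c d)
  have hIp : ∀ T : ℝ, Ip (2 * k) (gz 0) T (2 * T) = ∫ t in T..(2 * T), f t := fun T => by
    unfold Ip gz
    rw [hf]
    simp only [add_zero]
  constructor
  · rintro ⟨C, hC⟩
    refine ⟨2 * max C 0 * 2 ^ A, 2, by positivity, fun T hT => ?_⟩
    have hT0 : 0 < T := by linarith
    have hL0 : 0 < Real.log T := Real.log_pos (by linarith)
    have h1 := hC (2 * T) (by linarith)
    rw [hM, one_div, inv_mul_le_iff₀ (by linarith)] at h1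
    have h3 := hmono T (2 * T) 0 (2 * T) hT0.le (by linarith) le_rfl
    have h4 : Real.log (2 * T) ^ A ≤ 2 ^ A * Real.log T ^ A := by
      rw [← Real.mul_rpow (by norm_num) hL0.le]
      apply Real.rpow_le_rpow (Real.log_nonneg (by linarith)) _ hA
      have h6 : Real.log (2 * T) ≤ Real.log (T ^ 2) := Real.log_le_log (by linarith) (by nlinarith)
      rw [Real.log_pow] at h6
      exact_mod_cast h6
    have h5 : 0 ≤ Real.log (2 * T) ^ A := Real.rpow_nonneg (Real.log_nonneg (by linarith)) _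
    rw [hIp]
    calc (∫ t in T..(2 * T), f t) ≤ 2 * T * (C * Real.log (2 * T) ^ A) := h3.trans h1
      _ ≤ 2 * T * (max C 0 * (2 ^ A * Real.log T ^ A)) := by
          apply mul_le_mul_of_nonneg_left _ (by positivity)
          exact mul_le_mul (le_max_left _ _) h4 h5 (le_max_right _ _)
      _ = _ := by ring
  · rintro ⟨C, T0, hC0, k0⟩
    obtain ⟨S, hS⟩ : ∃ S : ℝ, S = max T0 2 := ⟨_, rfl⟩
    have hS1 : 2 ≤ S := by rw [hS]; exact le_max_right _ _
    obtain ⟨B, hB⟩ : ∃ B : ℝ, B = ∫ t in (0 : ℝ)..(2 * S), f t := ⟨_, rfl⟩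
    have hB0 : 0 ≤ B := by rw [hB]; exact intervalIntegral.integral_nonneg (by linarith) fun t _ => h0 t
    have hpos : ∀ T : ℝ, 2 ≤ T → 0 ≤ 2 * C * (T * Real.log T ^ A) := fun T hT => by
      have := Real.log_nonneg (by linarith : 1 ≤ T)
      positivity
    have claim : ∀ n : ℕ, ∀ T : ℝ, 2 ≤ T → T ≤ 2 ^ n * (2 * S) →
        (∫ t in (0 : ℝ)..T, f t) ≤ B + 2 * C * (T * Real.log T ^ A) := by
      intro n
      induction n with
      | zero =>
        intro T hT hT2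
        rw [pow_zero, one_mul] at hT2
        have h1 := hmono 0 T 0 (2 * S) le_rfl (by linarith) hT2
        rw [← hB] at h1
        linarith [hpos T hT]
      | succ n ih =>
        intro T hT hT2
        rcases le_or_gt T (2 * S) with h1 | h1
        · have h2 := hmono 0 T 0 (2 * S) le_rfl (by linarith) h1
          rw [← hB] at h2
          linarith [hpos T hT]
        · have h2 := ih (T / 2) (by linarith) (by rw [pow_succ] at hT2; linarith)
          have h3 := k0 (T / 2) (by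
            have : T0 ≤ S := by rw [hS]; exact le_max_left _ _
            linarith)
          rw [hIp, show 2 * (T / 2) = T by ring] at h3
          have h4 := intervalIntegral.integral_add_adjacent_intervals (hi 0 (T / 2)) (hi (T / 2) T)
          have h5 : Real.log (T / 2) ^ A ≤ Real.log T ^ A := by
            apply Real.rpow_le_rpow (Real.log_nonneg (by linarith)) _ hA
            exact Real.log_le_log (by linarith) (by linarith)
          have h6 : C * (T / 2 * Real.log (T / 2) ^ A) ≤ C * (T / 2 * Real.log T ^ A) :=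
            mul_le_mul_of_nonneg_left (mul_le_mul_of_nonneg_left h5 (by linarith)) hC0
          have h7 := hpos T hT
          linarith
    have hl2 : 0 < Real.log 2 := Real.log_pos (by norm_num)
    refine ⟨B / Real.log 2 ^ A + 2 * C, fun T hT => ?_⟩
    have hT0 : 0 < T := by linarith
    obtain ⟨n, hn⟩ := pow_unbounded_of_one_lt T (by norm_num : (1 : ℝ) < 2)
    have h1 := claim n T hT (by
      have : (0 : ℝ) < 2 ^ n := by positivity
      nlinarith)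
    rw [hM, one_div, inv_mul_le_iff₀ hT0]
    refine h1.trans ?_
    have h2 : B ≤ B / Real.log 2 ^ A * Real.log T ^ A := by
      rw [div_mul_eq_mul_div, le_div_iff₀ (by positivity)]
      apply mul_le_mul_of_nonneg_left _ hB0
      exact Real.rpow_le_rpow hl2.le (Real.log_le_log (by norm_num) hT) hA
    have h3 : 0 ≤ B / Real.log 2 ^ A * Real.log T ^ A := hB0.trans h2
    have h4 : B / Real.log 2 ^ A * Real.log T ^ A ≤ T * (B / Real.log 2 ^ A * Real.log T ^ A) :=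
      le_mul_of_one_le_left h3 (by linarith)
    calc B + 2 * C * (T * Real.log T ^ A) ≤ T * (B / Real.log 2 ^ A * Real.log T ^ A) +
          2 * C * (T * Real.log T ^ A) := by linarith
      _ = _ := by ring

lemma gd_eq (k σ₀ : ℝ) (n : ℕ) (T : ℝ) :
    (∫ t in T..(2 * T), ‖iteratedDeriv n riemannZeta (σ₀ + t * I)‖ ^ (2 * k)) =
      Ip (2 * k) (gd n (σ₀ - 1 / 2)) T (2 * T) := by
  unfold Ip gd
  congr 1
  funext t
  congr 3
  push_cast
  ring

lemma dirichlet_iff {k σ₀ κ A : ℝ} (hσ : 1 < σ₀) : TaylorLog k σ₀ κ A ↔ DirichletLog k σ₀ κ A := by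
  have e : ∀ (n : ℕ) (T : ℝ), (∫ t in T..(2 * T), ‖iteratedDeriv n riemannZeta (σ₀ + t * I)‖ ^ (2 * k)) =
      ∫ t in T..(2 * T),
        ‖∑' m : ℕ, (Real.log ((m : ℝ) + 1) : ℂ) ^ n / ((m : ℂ) + 1) ^ (σ₀ + t * I)‖ ^ (2 * k) := by
    intro n T
    congr 1
    funext t
    rw [zeta_iter n (by simpa using hσ), norm_mul, norm_pow, norm_neg, norm_one, one_pow, one_mul]
  unfold TaylorLog DirichletLog
  simp only [e]

lemma part1 {k σ₀ A : ℝ} (hk : 1 ≤ k) (hσ : 1 / 2 < σ₀) (hA : 0 ≤ A) (h : LogPower k A) : TaylorAll k σ₀ A := by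
  obtain ⟨C, T0, -, k0⟩ := dl_of_la (p := 2 * k) (r0 := σ₀ - 1 / 2) (by linarith) hA (by linarith)
    ((log_iff (by linarith) hA).1 h)
  refine ⟨C, T0, fun T hT n => ?_⟩
  rw [gd_eq]
  refine (k0 T hT n).trans (le_of_eq ?_)
  ring

lemma part2 {k σ₀ κ A : ℝ} (hk : 1 ≤ k) (hσ : 1 / 2 < σ₀) (hA : 0 ≤ A) (hκ : 0 < κ)
    (hκ2 : 1 / 2 < κ * Real.log (1 + 1 / (2 * σ₀ - 1))) (h : TaylorLog k σ₀ κ A) : LogPower k (A + 2 * k) := by
  rw [log_iff (by linarith) (by linarith)]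
  have e : 2 * (σ₀ - 1 / 2) = 2 * σ₀ - 1 := by ring
  refine la_of_dl (r0 := σ₀ - 1 / 2) (κ := κ) (by linarith) hA (by linarith) hκ (by rw [e]; exact hκ2) ?_
  obtain ⟨C, T0, k0⟩ := h
  refine ⟨max C 0, max T0 1, le_max_right _ _, fun T hT n hn => ?_⟩
  have hT1 : 1 ≤ T := (le_max_right _ _).trans hT
  have h1 := k0 T ((le_max_left _ _).trans hT) n hn
  rw [gd_eq] at h1
  refine h1.trans ?_
  have hL0 := Real.log_nonneg hT1
  have hD : 0 < σ₀ - 1 / 2 := by linarith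
  have h2 : 0 ≤ ((n.factorial : ℝ) / (σ₀ - 1 / 2) ^ n) ^ (2 * k) * (T * Real.log T ^ A) := by positivity
  calc C * ((n.factorial : ℝ) / (σ₀ - 1 / 2) ^ n) ^ (2 * k) * (T * Real.log T ^ A)
      = C * (((n.factorial : ℝ) / (σ₀ - 1 / 2) ^ n) ^ (2 * k) * (T * Real.log T ^ A)) := by ring
    _ ≤ max C 0 * (((n.factorial : ℝ) / (σ₀ - 1 / 2) ^ n) ^ (2 * k) * (T * Real.log T ^ A)) :=
        mul_le_mul_of_nonneg_right (le_max_left _ _) h2
    _ = _ := by ring

/-- **Main theorem.** -/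
theorem result (k σ₀ : ℝ) (hk : 1 ≤ k) (hσ : 1 / 2 < σ₀) :
    (∀ A : ℝ, 0 ≤ A → LogPower k A → TaylorAll k σ₀ A) ∧
    (∀ κ A : ℝ, 0 ≤ A → 0 < κ → 1 / 2 < κ * Real.log (1 + 1 / (2 * σ₀ - 1)) →
      TaylorLog k σ₀ κ A → LogPower k (A + 2 * k)) ∧
    (∀ κ : ℝ, 0 < κ → 1 / 2 < κ * Real.log (1 + 1 / (2 * σ₀ - 1)) →
      ((∃ A : ℝ, 0 ≤ A ∧ LogPower k A) ↔ ∃ A : ℝ, 0 ≤ A ∧ TaylorLog k σ₀ κ A)) ∧
    (∀ κ : ℝ, 1 < σ₀ → 0 < κ → 1 / 2 < κ * Real.log (1 + 1 / (2 * σ₀ - 1)) →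
      ((∃ A : ℝ, 0 ≤ A ∧ LogPower k A) ↔ ∃ A : ℝ, 0 ≤ A ∧ DirichletLog k σ₀ κ A)) := by
  have h3 : ∀ κ : ℝ, 0 < κ → 1 / 2 < κ * Real.log (1 + 1 / (2 * σ₀ - 1)) →
      ((∃ A : ℝ, 0 ≤ A ∧ LogPower k A) ↔ ∃ A : ℝ, 0 ≤ A ∧ TaylorLog k σ₀ κ A) := by
    intro κ hκ hκ2
    constructor
    · rintro ⟨A, hA, h⟩
      obtain ⟨C, T0, h1⟩ := part1 hk hσ hA h
      exact ⟨A, hA, C, T0, fun T hT n _ => h1 T hT n⟩
    · rintro ⟨A, hA, h⟩
      exact ⟨A + 2 * k, by linarith, part2 hk hσ hA hκ hκ2 h⟩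
  refine ⟨fun A hA h => part1 hk hσ hA h, fun κ A hA hκ hκ2 h => part2 hk hσ hA hκ hκ2 h, h3,
    fun κ hσ1 hκ hκ2 => ?_⟩
  rw [h3 κ hκ hκ2]
  simp only [dirichlet_iff hσ1]

end Pool.Agent.Results.MP_39df77_nt.LogPowerTaylorMoments
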